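import Mathlib
import Pool.Agent.R312T.Main

/-!
# The series of Möbius values of the triangular divisibility order converges

`T(i) = i(i+1)/2`, `i ≼ j` iff `T(i) ∣ T(j)`, `μ(1) = 1` and `∑_{d ≼ n} μ(d) = 0` for `n ≥ 2`.
We prove `|μ(n)| ≤ K (n(n+1))^(2/5)`, so that `∑ μ(i)/T(i)` converges (absolutely).

Idea: bound `|μ(n)|` by weighted numbers of chains.  If `d ≼ n` and `m = T(n)/T(d)` then
`m (2d+1)² = q + m` with `q = 4n(n+1)`.  By Runge's method the product of an even number of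
distinct numbers `q + m` with `m` small compared to `q` is never a square, so the small ratios `m`
occurring for a given `n` are multiplicatively independent modulo squares (up to a large
length); together with the divisor bound this makes them very rare: at most `X^(1/10)` of them are
`≤ X`, for every `X ≥ (log₂ q)^21`.  A block decomposition of chains then gives the bound.
-/

set_option autoImplicit false

namespace Pool.Agent.Results.MP_175962_nt.Convergence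

open Finset Filter Topology

/-- triangular numbers -/
def T (i : ℕ) : ℕ := i * (i + 1) / 2

/-- `μ` is the Möbius function `μ(1, ·)` (from the bottom element) of the order
`i ≼ j ↔ T i ∣ T j` on the positive integers. -/
def IsMobius (μ : ℕ → ℤ) : Prop :=
  μ 1 = 1 ∧ ∀ n, 2 ≤ n → ∑ d ∈ (Icc 1 n).filter (fun d => T d ∣ T n), μ d = 0

theorem two_T (i : ℕ) : 2 * T i = i * (i + 1) := by
  rw [T]
  exact Nat.mul_div_cancel' (Nat.even_mul_succ_self i).two_dvd

theorem T_dvd_iff (d n : ℕ) : T d ∣ T n ↔ d * (d + 1) ∣ n * (n + 1) := by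
  rw [← two_T, ← two_T]
  exact (Nat.mul_dvd_mul_iff_left (by norm_num)).symm

theorem filter_eq (n : ℕ) (hn : 1 ≤ n) :
    (Icc 1 n).filter (fun d => T d ∣ T n) = insert n (R312T.S n) := by
  ext d
  rw [Finset.mem_filter, Finset.mem_Icc, Finset.mem_insert, R312T.mem_S, T_dvd_iff]
  constructor
  · rintro ⟨⟨h1, h2⟩, h3⟩
    rcases eq_or_lt_of_le h2 with h | h
    · exact Or.inl h
    · exact Or.inr ⟨⟨h1, h⟩, h3⟩
  · rintro (h | h)
    · subst h
      exact ⟨⟨hn, le_rfl⟩, dvd_rfl⟩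
    · exact ⟨⟨h.1.1, h.1.2.le⟩, h.2⟩

theorem notMem_S (n : ℕ) : n ∉ R312T.S n := by
  rw [R312T.mem_S]
  intro h
  omega

/-- an explicit Möbius function -/
def mob : ℕ → ℤ
  | n => if n ≤ 1 then 1 else
      - ∑ d : {d // d ∈ R312T.S n}, mob d.1
termination_by n => n
decreasing_by
  have := d.2
  rw [R312T.mem_S] at this
  omega

theorem mob_isMobius : IsMobius mob := by
  refine ⟨?_, ?_⟩
  · rw [mob]; simp
  · intro n hn
    rw [filter_eq n (by omega), Finset.sum_insert (notMem_S n), mob, if_neg (by omega),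
      Finset.univ_eq_attach, Finset.sum_attach (R312T.S n) (fun d => mob d)]
    ring

theorem growth (μ : ℕ → ℤ) (hμ : IsMobius μ) :
    ∃ K : ℝ, 0 < K ∧ ∀ n : ℕ, 1 ≤ n → |(μ n : ℝ)| ≤ K * ((n * (n + 1) : ℕ) : ℝ) ^ (2 / 5 : ℝ) := by
  apply R312T.growth (fun n => |(μ n : ℝ)|) (fun n => abs_nonneg _)
  intro n hn
  have h := hμ.2 n hn
  rw [filter_eq n (by omega), Finset.sum_insert (notMem_S n)] at h
  have h2 : (μ n : ℝ) = - ∑ d ∈ R312T.S n, (μ d : ℝ) := by
    have h3 : μ n = - ∑ d ∈ R312T.S n, μ d := by linarith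
    rw [h3]; push_cast; rfl
  rw [h2, abs_neg]
  exact Finset.abs_sum_le_sum_abs _ _

theorem term_bound (K : ℝ) (hK : 0 < K) (x : ℝ) (n : ℕ) (hn : 1 ≤ n)
    (hx : |x| ≤ K * ((n * (n + 1) : ℕ) : ℝ) ^ (2 / 5 : ℝ)) :
    |x| / (T n : ℝ) ≤ 2 * K * (n : ℝ) ^ (-(6 / 5) : ℝ) := by
  have hn0 : (0:ℝ) < n := by exact_mod_cast hn
  have hT : ((n * (n + 1) : ℕ) : ℝ) = 2 * (T n : ℝ) := by
    rw [← two_T]; push_cast; ring
  set t : ℝ := ((n * (n + 1) : ℕ) : ℝ) with ht
  have htn : (n : ℝ) ^ (2:ℝ) ≤ t := by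
    rw [ht]
    push_cast
    rw [Real.rpow_two]
    nlinarith
  have htpos : 0 < t := lt_of_lt_of_le (by positivity) htn
  have hTpos : (0:ℝ) < (T n : ℝ) := by linarith
  rw [div_le_iff₀ hTpos]
  have h1 : t ^ (-(3 / 5) : ℝ) ≤ (n : ℝ) ^ (-(6 / 5) : ℝ) := by
    calc t ^ (-(3 / 5) : ℝ) ≤ ((n : ℝ) ^ (2:ℝ)) ^ (-(3 / 5) : ℝ) :=
          Real.rpow_le_rpow_of_nonpos (by positivity) htn (by norm_num)
      _ = _ := by rw [← Real.rpow_mul hn0.le]; norm_num
  have h2 : t ^ (2 / 5 : ℝ) = t ^ (-(3 / 5) : ℝ) * t := by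
    nth_rewrite 3 [← Real.rpow_one t]
    rw [← Real.rpow_add htpos]
    norm_num
  calc |x| ≤ K * t ^ (2 / 5 : ℝ) := hx
    _ = K * t ^ (-(3 / 5) : ℝ) * t := by rw [h2]; ring
    _ ≤ K * (n : ℝ) ^ (-(6 / 5) : ℝ) * t := by
        apply mul_le_mul_of_nonneg_right _ htpos.le
        exact mul_le_mul_of_nonneg_left h1 hK.le
    _ = 2 * K * (n : ℝ) ^ (-(6 / 5) : ℝ) * (T n : ℝ) := by rw [hT]; ring

theorem summable_abs (μ : ℕ → ℤ) (hμ : IsMobius μ) :
    Summable (fun i : ℕ => |(μ i : ℝ)| / (T i : ℝ)) := by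
  obtain ⟨K, hK, hb⟩ := growth μ hμ
  have hs : Summable (fun n : ℕ => 2 * K * (n : ℝ) ^ (-(6 / 5) : ℝ)) := by
    apply Summable.mul_left
    rw [Real.summable_nat_rpow]
    norm_num
  apply Summable.of_nonneg_of_le _ _ hs
  · intro n; positivity
  · intro n
    rcases Nat.eq_zero_or_pos n with h | h
    · subst h
      have : T 0 = 0 := by simp [T]
      rw [this]
      simp
    · exact term_bound K hK _ n h (hb n h)

/-- The Möbius function of the triangular divisibility order exists, and for it the series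
`∑ μ(i)/T(i)` converges: the partial sums `∑_{1 ≤ i ≤ n} μ(i)/T(i)` tend to a finite limit.
Moreover the convergence is absolute, and `μ(n) = O(n^{4/5})`. -/
theorem result : (∃ μ : ℕ → ℤ, IsMobius μ) ∧
    ∀ μ : ℕ → ℤ, IsMobius μ →
      (∃ D : ℝ, Tendsto (fun n : ℕ => ∑ i ∈ Icc 1 n, (μ i : ℝ) / (T i : ℝ)) atTop (𝓝 D)) ∧
      Summable (fun i : ℕ => |(μ i : ℝ)| / (T i : ℝ)) ∧
      (∃ K : ℝ, 0 < K ∧ ∀ n : ℕ, 1 ≤ n → |(μ n : ℝ)| ≤ K * (n : ℝ) ^ (4 / 5 : ℝ)) := by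
  refine ⟨⟨mob, mob_isMobius⟩, fun μ hμ => ⟨?_, summable_abs μ hμ, ?_⟩⟩
  · have hs : Summable (fun i : ℕ => (μ i : ℝ) / (T i : ℝ)) := by
      apply Summable.of_norm
      have := summable_abs μ hμ
      refine this.congr ?_
      intro i
      rw [Real.norm_eq_abs, abs_div, Nat.abs_cast]
    refine ⟨∑' i : ℕ, (μ i : ℝ) / (T i : ℝ), ?_⟩
    have h1 := (hs.hasSum.tendsto_sum_nat).comp (tendsto_add_atTop_nat 1)
    refine h1.congr ?_
    intro n
    simp only [Function.comp]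
    rw [Finset.range_eq_Ico, Finset.sum_eq_sum_Ico_succ_bot (by omega)]
    have hT0 : T 0 = 0 := by simp [T]
    rw [hT0]
    simp only [Nat.cast_zero, div_zero, zero_add]
    apply Finset.sum_congr _ (fun _ _ => rfl)
    ext i
    simp only [Finset.mem_Ico, Finset.mem_Icc]
    omega
  · obtain ⟨K, hK, hb⟩ := growth μ hμ
    refine ⟨2 * K, by positivity, fun n hn => (hb n hn).trans ?_⟩
    have hn0 : (1:ℝ) ≤ n := by exact_mod_cast hn
    have h1 : ((n * (n + 1) : ℕ) : ℝ) ^ (2 / 5 : ℝ) ≤ 2 * (n : ℝ) ^ (4 / 5 : ℝ) := by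
      have e1 : ((n * (n + 1) : ℕ) : ℝ) ≤ 2 * (n : ℝ) ^ (2:ℝ) := by
        push_cast
        rw [Real.rpow_two]
        nlinarith
      calc ((n * (n + 1) : ℕ) : ℝ) ^ (2 / 5 : ℝ) ≤ (2 * (n : ℝ) ^ (2:ℝ)) ^ (2 / 5 : ℝ) :=
            Real.rpow_le_rpow (by positivity) e1 (by norm_num)
        _ = 2 ^ (2 / 5 : ℝ) * ((n : ℝ) ^ (2:ℝ)) ^ (2 / 5 : ℝ) :=
            Real.mul_rpow (by norm_num) (by positivity)
        _ = 2 ^ (2 / 5 : ℝ) * (n : ℝ) ^ (4 / 5 : ℝ) := by
            rw [← Real.rpow_mul (by linarith)]; norm_num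
        _ ≤ 2 * (n : ℝ) ^ (4 / 5 : ℝ) := by
            apply mul_le_mul_of_nonneg_right _ (by positivity)
            calc (2:ℝ) ^ (2 / 5 : ℝ) ≤ (2:ℝ) ^ (1:ℝ) :=
                  Real.rpow_le_rpow_of_exponent_le (by norm_num) (by norm_num)
              _ = 2 := Real.rpow_one _
    calc K * ((n * (n + 1) : ℕ) : ℝ) ^ (2 / 5 : ℝ) ≤ K * (2 * (n : ℝ) ^ (4 / 5 : ℝ)) :=
          mul_le_mul_of_nonneg_left h1 hK.le
      _ = _ := by ring

end Pool.Agent.Results.MP_175962_nt.Convergence
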